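import Mathlib
import Pool.Agent.H31.Cat

set_option autoImplicit false

namespace Pool.Agent.Results.MP_28c202_co.Full

open Polynomial

/-- Major index of a finite sequence `w(1), …, w(m)` (a list, `w(i+1)` being entry `i`):
the sum of the positions `p` with `w(p) > w(p+1)`. -/
def maj (w : List ℕ) : ℕ :=
  ∑ i ∈ Finset.range (w.length - 1), if w.getD (i + 1) 0 < w.getD i 0 then i + 1 else 0

/-- For `x = (i-1)t + k` in `[2t]` with `i ∈ {1,2}`, `k ∈ [t]`: the index `i`. -/
def row (t x : ℕ) : ℕ := if x ≤ t then 1 else 2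

/-- For `x = (i-1)t + k` in `[2t]` with `i ∈ {1,2}`, `k ∈ [t]`: the index `k`. -/
def col (t x : ℕ) : ℕ := if x ≤ t then x else x - t

/-- The strict order `x ≺ y` of `NE_{2,t}`. -/
def Prec (t x y : ℕ) : Prop := x ≠ y ∧ row t y ≤ row t x ∧ col t y ≤ col t x

open Classical in
/-- `NE_{2,t}(123)`: permutations of `[2t]` in one-line notation that are linear extensions of
`NE_{2,t}` and avoid `123`. -/
noncomputable def NE123 (t : ℕ) : Finset (List ℕ) :=
  (List.range' 1 (2 * t)).permutations.toFinset.filter (fun π =>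
    (∀ a b : Fin π.length, Prec t (π.get a) (π.get b) → a < b) ∧
    ¬ ∃ a b c : Fin π.length, a < b ∧ b < c ∧ π.get a < π.get b ∧ π.get b < π.get c)

/-- Catalan words of length `2n`. -/
def CW (n : ℕ) : Finset (List ℕ) :=
  (List.replicate n 0 ++ List.replicate n 1).permutations.toFinset.filter
    (fun w => ∀ k ≤ w.length, (w.take k).count 1 ≤ (w.take k).count 0)

lemma NE_eq (t : ℕ) : NE123 t = Pool.Agent.H31.Cat.P t t t := by
  ext l
  rw [Pool.Agent.H31.Cat.memP t t t le_rfl le_rfl]
  simp only [NE123, Finset.mem_filter, List.mem_toFinset, List.mem_permutations]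
  constructor
  · rintro ⟨h1, h2, _⟩
    refine ⟨h1.nodup_iff.2 List.nodup_range', fun x => ?_, ?_, le_rfl⟩
    · rw [h1.mem_iff, List.mem_range'_1]; omega
    · rw [List.pairwise_iff_get]
      intro i j hij hp
      exact absurd (h2 j i hp) (not_lt.2 hij.le)
  · rintro ⟨h1, h2, h3, _⟩
    rw [List.pairwise_iff_get] at h3
    refine ⟨(List.perm_ext_iff_of_nodup h1 List.nodup_range').2 (fun x => ?_), fun a b hp => ?_, ?_⟩
    · rw [h2, List.mem_range'_1]; omega
    · rcases lt_trichotomy a b with h | h | h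
      · exact h
      · exact absurd (by rw [h]) hp.1
      · exact absurd hp (h3 b a h)
    · rintro ⟨a, b, c, hab, hbc, h4, h5⟩
      have k1 := h3 a b hab
      have k2 := h3 b c hbc
      unfold Pool.Agent.H31.Cat.prec at k1 k2
      split_ifs at k1 k2 <;> omega

theorem result (t : ℕ) (_ht : 1 ≤ t) :
    (∑ π ∈ NE123 t, (X : ℤ[X]) ^ maj π) = X ^ (t ^ 2) * ∑ w ∈ CW t, (X : ℤ[X]) ^ maj w := by
  apply Polynomial.map_injective (Int.castRingHom ℝ) Int.cast_injective
  apply Polynomial.eq_of_infinite_eval_eq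
  refine (Set.Ioi_infinite (1 : ℝ)).mono (fun q hq => ?_)
  simp only [Set.mem_setOf_eq, Polynomial.map_mul, Polynomial.map_sum, Polynomial.map_pow,
    Polynomial.map_X, eval_mul, eval_pow, eval_X, eval_finset_sum, NE_eq]
  exact Pool.Agent.H31.Cat.main_real q hq t

end Pool.Agent.Results.MP_28c202_co.Full
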